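import Pool.Agent.W_448hul_h24.Conf

/-!
# Lemma H: the joins of least energy have both parities

`P` Gaussian with levels `0..r`, `i ≤ r`, no element of level at most `i` is below two maximal
elements, level `i` has as many elements as level `0`.  `E` is a lower bound for the energies
`En i w = ∑_(y ≥ w) (lev y - i)` of the joins (elements below two maximal elements).  Then the
number of the joins of energy `E` with an even number of elements above them equals the number of
those with an odd number.
-/

namespace Pool.Agent.GaussPoset.Hul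

set_option linter.unusedSectionVars false

open Polynomial Finset

universe u

variable {P : Type u} [Fintype P] [PartialOrder P] [DecidableEq P] {r i : ℕ}

open Classical in
/-- the sum over the joins of least energy, counted from level `i` -/
theorem hull_uc (H : Gr P r) (hi : i ≤ r) (hone : ∀ x : P, lev x ≤ i → ¬ Jn x)
    (hcard : (lv P i).card = (lv P 0).card) {E : ℕ} (hE : ∀ w : P, Jn w → E ≤ En i w) :
    ∑ w ∈ univ.filter (fun w : P => Jn w ∧ En i w = E), (-1 : ℤ) ^ uc i w = 0 := by
  obtain ⟨W, hW⟩ : ∃ W, W = univ.filter (fun w : P => Jn w ∧ En i w = E) := ⟨_, rfl⟩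
  rw [← hW]
  rcases W.eq_empty_or_nonempty with hne | ⟨w0, hw0⟩
  · rw [hne, Finset.sum_empty]
  have hmem : ∀ w ∈ W, Jn w ∧ En i w = E := fun w hw => by
    rw [hW, mem_filter] at hw
    exact hw.2
  have hlev : ∀ w ∈ W, i < lev w := fun w hw => by
    by_contra h
    exact hone w (not_lt.1 h) (hmem w hw).1
  have hsites : ∀ w ∈ W, ((lv P i).filter fun s => w ≤ s).card = 2 := fun w hw =>
    two_sites H hi hone hcard (hmem w hw).1 fun u hu => by
      rw [(hmem w hw).2]
      exact hE u hu
  obtain ⟨M, hM⟩ : ∃ M, (lv P i).card = M + 1 := by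
    refine ⟨(lv P i).card - 1, ?_⟩
    have h1 := hsites w0 hw0
    have h2 := Finset.card_filter_le (lv P i) (fun s => w0 ≤ s)
    omega
  have hPk : ∀ w ∈ W, (Pk i (ew i w)).card = M := fun w hw => by
    have h1 := Pk_ew (hlev w hw)
    rw [hsites w hw] at h1
    omega
  -- the terms
  let t : (P → ℕ) → ℤ[X] := fun e =>
    if Adm i e then X ^ (nf i e) * (1 + X) ^ (Pk i e).card else 0
  have hZ : Z P i E = ∑ e ∈ (univ : Finset P).piAntidiag E, t e := rfl
  have hsub : W.image (ew i) ⊆ (univ : Finset P).piAntidiag E := by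
    intro e he
    obtain ⟨w, hw, rfl⟩ := mem_image.1 he
    rw [mem_piAntidiag]
    exact ⟨by rw [sum_ew]; exact (hmem w hw).2, fun _ _ => mem_univ _⟩
  have hdvd : (1 + X : ℤ[X]) ^ (M + 1) ∣
      ∑ e ∈ (univ : Finset P).piAntidiag E \ W.image (ew i), t e := by
    refine Finset.dvd_sum fun e he => ?_
    rw [mem_sdiff, mem_piAntidiag] at he
    show (1 + X : ℤ[X]) ^ (M + 1) ∣ if Adm i e then _ else _
    split_ifs with hA
    · refine Dvd.dvd.mul_left (pow_dvd_pow _ ?_) _
      by_contra hlt
      obtain ⟨w, h1, h2, h3⟩ := few_peaks H hi hone hcard hE hA he.1.1 (by omega)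
      refine he.2 (mem_image.2 ⟨w, ?_, h3.symm⟩)
      rw [hW]
      simp [h1, h2]
    · exact dvd_zero _
  have hZd := dvd_Z H.gauss i E
  rw [hM, hZ, ← Finset.sum_sdiff hsub] at hZd
  have h1 := (dvd_add_right hdvd).1 hZd
  have hinj : Set.InjOn (ew i) (W : Set P) := fun w hw w' hw' h =>
    ew_inj (hlev w hw) (hlev w' hw') h
  rw [Finset.sum_image hinj] at h1
  have h2 : ∑ w ∈ W, t (ew i w) = (1 + X : ℤ[X]) ^ M * ∑ w ∈ W, X ^ nf i (ew i w) := by
    rw [Finset.mul_sum]
    refine Finset.sum_congr rfl fun w hw => ?_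
    show (if Adm i (ew i w) then _ else _) = _
    rw [if_pos (adm_ew (hlev w hw)), hPk w hw, mul_comm]
  rw [h2, pow_succ] at h1
  have hne : (1 + X : ℤ[X]) ^ M ≠ 0 := by
    have h3 := X_pow_mul_ne_zero 0 M
    rwa [pow_zero, one_mul] at h3
  have h4 := (mul_dvd_mul_iff_left hne).1 h1
  obtain ⟨g, hg⟩ := h4
  have h5 := congrArg (Polynomial.eval (-1)) hg
  rw [Polynomial.eval_finsetSum, Polynomial.eval_mul] at h5
  simp only [eval_pow, eval_X, eval_add, eval_one, add_neg_cancel, zero_mul] at h5
  have h6 : ∀ w ∈ W, (-1 : ℤ) ^ uc i w = -(-1) ^ below P i * (-1) ^ nf i (ew i w) := by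
    intro w hw
    have h7 := nf_ew (hlev w hw)
    have h8 : (-1 : ℤ) ^ (below P i + uc i w) = (-1) ^ (nf i (ew i w) + 1) := by rw [← h7]
    have h9 : ((-1 : ℤ) ^ below P i) * (-1) ^ below P i = 1 := by
      rw [← mul_pow]
      norm_num
    rw [pow_add, pow_succ] at h8
    calc (-1 : ℤ) ^ uc i w = ((-1) ^ below P i * (-1) ^ below P i) * (-1) ^ uc i w := by
          rw [h9, one_mul]
      _ = (-1) ^ below P i * ((-1) ^ below P i * (-1) ^ uc i w) := by ring
      _ = _ := by
          rw [h8]
          ring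
  rw [Finset.sum_congr rfl h6, ← Finset.mul_sum, h5, mul_zero]

open Classical in
/-- the number of elements of a level of single sites above `w` is the number of tops above `w` -/
lemma level_card (H : Gr P r) (hi : i ≤ r) (hone : ∀ x : P, lev x ≤ i → ¬ Jn x)
    (hcard : (lv P i).card = (lv P 0).card) {w : P} (hw : i ≤ lev w) :
    ((lv P i).filter fun s => w ≤ s).card = ((lv P 0).filter fun s => w ≤ s).card := by
  have hex : ∀ s : P, ∃ v, s ≤ v ∧ lev v = 0 := fun s => exists_above' (Nat.zero_le _)
  choose f hf hf2 using hex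
  refine Finset.card_bij (fun s _ => f s) ?_ ?_ ?_
  · intro s hs
    rw [mem_filter, mem_lv] at hs ⊢
    exact ⟨hf2 s, hs.2.trans (hf s)⟩
  · intro s hs s' hs' h
    rw [mem_filter, mem_lv] at hs hs'
    exact site_unique H hi hone hcard hs.1 hs'.1 (hf2 s) (hf s) (by rw [h]; exact hf s')
  · intro v hv
    rw [mem_filter, mem_lv] at hv
    obtain ⟨s, h1, h2, h3⟩ := exists_between H.gauss hv.2 (k := i) (by omega) hw
    refine ⟨s, by rw [mem_filter, mem_lv]; exact ⟨h3, h1⟩, ?_⟩
    exact top_unique (hone s h3.le) (hf2 s) hv.1 (hf s) h2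

open Classical in
/-- the number of elements above `w` (with `w`) -/
noncomputable def ua (w : P) : ℕ := (univ.filter (fun x => w ≤ x)).card

open Classical in
/-- the number of elements of level `k` above `w` -/
noncomputable def cc (k : ℕ) (w : P) : ℕ := ((lv P k).filter (fun x => w ≤ x)).card

open Classical in
lemma sum_levels (w : P) (f : ℕ → ℕ) (i : ℕ) :
    ∑ x ∈ univ.filter (fun x : P => w ≤ x ∧ lev x < i), f (lev x) =
      ∑ k ∈ Finset.range i, f k * cc k w := by
  rw [← Finset.sum_fiberwise_of_maps_to (t := Finset.range i) (g := fun x : P => lev x)]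
  · refine Finset.sum_congr rfl fun k hk => ?_
    rw [Finset.sum_congr rfl (g := fun _ => f k)]
    · rw [Finset.sum_const, smul_eq_mul, mul_comm]
      unfold cc
      congr 2
      ext x
      simp only [mem_filter, mem_univ, true_and, mem_lv]
      constructor
      · rintro ⟨⟨h1, -⟩, h2⟩
        exact ⟨h2, h1⟩
      · rintro ⟨h1, h2⟩
        refine ⟨⟨h2, ?_⟩, h1⟩
        rw [h1]
        exact Finset.mem_range.1 hk
    · intro x hx
      rw [(mem_filter.1 hx).2]
  · intro x hx
    rw [mem_filter] at hx
    exact Finset.mem_range.2 hx.2.2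

lemma cc_eq (H : Gr P r) (hi : i ≤ r) (hone : ∀ x : P, lev x ≤ i → ¬ Jn x) {M : ℕ}
    (hcard : ∀ k ≤ i, (lv P k).card = M) {w : P} (hw : i ≤ lev w) {k : ℕ} (hk : k ≤ i) :
    cc k w = cc 0 w := by
  classical
  exact level_card H (hk.trans hi) (fun x hx => hone x (hx.trans hk))
    (by rw [hcard k hk, hcard 0 (Nat.zero_le _)]) (hk.trans hw)

/-- the number of elements above `w` -/
lemma ua_eq (H : Gr P r) (hi : i ≤ r) (hone : ∀ x : P, lev x ≤ i → ¬ Jn x) {M : ℕ}
    (hcard : ∀ k ≤ i, (lv P k).card = M) {w : P} (hw : i ≤ lev w) :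
    ua w = uc i w + cc 0 w * i := by
  classical
  have h1 := sum_levels w (fun _ => 1) i
  simp only [one_mul, Finset.sum_const, smul_eq_mul, mul_one] at h1
  rw [Finset.sum_congr rfl (g := fun _ => cc 0 w) fun k hk =>
    cc_eq H hi hone hcard hw (Finset.mem_range.1 hk).le, Finset.sum_const, Finset.card_range,
    smul_eq_mul] at h1
  rw [mul_comm, ← h1]
  unfold ua uc
  rw [← Finset.card_filter_add_card_filter_not (s := univ.filter fun x : P => w ≤ x)
    (fun x => i ≤ lev x), Finset.filter_filter, Finset.filter_filter]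
  simp only [not_le]

/-- the energies in different windows -/
lemma En_eq (H : Gr P r) (hi : i ≤ r) (hone : ∀ x : P, lev x ≤ i → ¬ Jn x) {M : ℕ}
    (hcard : ∀ k ≤ i, (lv P k).card = M) {w : P} (hw : i ≤ lev w) (h2 : cc 0 w = 2) :
    En i w + i * ua w = En 0 w + i * (i + 1) := by
  classical
  have h1 := sum_levels w (fun k => k) i
  have h0 : ∑ k ∈ Finset.range i, k * cc k w = i * (i - 1) := by
    rw [Finset.sum_congr rfl (g := fun k : ℕ => k * 2) fun k hk => by
      rw [cc_eq H hi hone hcard hw (Finset.mem_range.1 hk).le, h2], ← Finset.sum_mul,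
      Finset.sum_range_id_mul_two]
  rw [h0] at h1
  have h3 : En 0 w = ∑ x ∈ univ.filter (fun x : P => w ≤ x ∧ lev x < i), lev x +
      ∑ x ∈ univ.filter (fun x : P => w ≤ x ∧ i ≤ lev x), lev x := by
    unfold En
    rw [← Finset.sum_filter_add_sum_filter_not (univ.filter fun x : P => w ≤ x)
      (fun x => lev x < i), Finset.filter_filter, Finset.filter_filter]
    simp only [not_lt, Nat.sub_zero]
  have h4 : En i w + i * uc i w =
      ∑ x ∈ univ.filter (fun x : P => w ≤ x ∧ i ≤ lev x), lev x := by
    have h5 : En i w = ∑ x ∈ univ.filter (fun x : P => w ≤ x ∧ i ≤ lev x), (lev x - i) := by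
      unfold En
      symm
      refine Finset.sum_subset ?_ ?_
      · intro x hx
        simp only [mem_filter, mem_univ, true_and] at hx ⊢
        exact hx.1
      · intro x hx hx2
        simp only [mem_filter, mem_univ, true_and] at hx hx2
        have : lev x < i := by
          by_contra h
          exact hx2 ⟨hx, not_lt.1 h⟩
        omega
    rw [h5]
    unfold uc
    rw [mul_comm, ← smul_eq_mul, ← Finset.sum_const, ← Finset.sum_add_distrib]
    refine Finset.sum_congr rfl fun x hx => ?_
    have := (mem_filter.1 hx).2.2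
    omega
  have h6 := ua_eq H hi hone hcard hw
  rw [h2] at h6
  rw [h3, h1, ← h4, h6]
  rcases Nat.eq_zero_or_pos i with h7 | h7
  · subst h7
    simp
  · obtain ⟨n, rfl⟩ : ∃ n, i = n + 1 := ⟨i - 1, by omega⟩
    rw [Nat.add_sub_cancel]
    ring

open Classical in
/-- LEMMA H.  The levels `0, ..., i` consist of single sites: no element of them is below two
maximal elements, and they have the same number of elements.  Then the joins of least energy
`En i w` have both parities of the number `ua w` of elements above them, equally often. -/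
theorem hull (H : Gr P r) (hi : i ≤ r) (hone : ∀ x : P, lev x ≤ i → ¬ Jn x)
    (hcard : ∀ k ≤ i, (lv P k).card = (lv P 0).card) {E : ℕ}
    (hE : ∀ w : P, Jn w → E ≤ En i w) :
    ∑ w ∈ univ.filter (fun w : P => Jn w ∧ En i w = E), (-1 : ℤ) ^ ua w = 0 := by
  have h1 := hull_uc H hi hone (hcard i le_rfl) hE
  rw [← h1]
  refine Finset.sum_congr rfl fun w hw => ?_
  rw [mem_filter] at hw
  obtain ⟨-, hwJ, hwE⟩ := hw
  have hlw : i < lev w := by
    by_contra h
    exact hone w (not_lt.1 h) hwJ
  have h2 := two_sites H hi hone (hcard i le_rfl) hwJ fun u hu => by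
    rw [hwE]
    exact hE u hu
  have h3 : cc 0 w = 2 := by
    rw [← cc_eq H hi hone hcard hlw.le le_rfl]
    exact h2
  rw [ua_eq H hi hone hcard hlw.le, h3, pow_add, pow_mul]
  norm_num

open Classical in
/-- window `0`, no hypothesis -/
theorem hull_zero (H : Gr P r) {E : ℕ} (hE : ∀ w : P, Jn w → E ≤ En 0 w) :
    ∑ w ∈ univ.filter (fun w : P => Jn w ∧ En 0 w = E), (-1 : ℤ) ^ ua w = 0 := by
  refine hull H (Nat.zero_le _) (fun x hx hJ => ?_) (fun k hk => by
    rw [Nat.le_zero.1 hk]) hE
  obtain ⟨v, v', h1, h2, h3, h4, h5⟩ := hJ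
  have h6 : ∀ v : P, x ≤ v → x = v := fun v hv => by
    by_contra hne
    have := lev_strictAnti (lt_of_le_of_ne hv hne)
    omega
  exact h3 ((h6 v h4).symm.trans (h6 v' h5))

section Straight

lemma cc_self (w : P) : cc (lev w) w = 1 := by
  classical
  unfold cc
  rw [Finset.card_eq_one]
  refine ⟨w, ?_⟩
  ext x
  simp only [mem_filter, mem_lv, mem_singleton]
  constructor
  · rintro ⟨h1, h2⟩
    by_contra hne
    have := lev_strictAnti (lt_of_le_of_ne h2 (Ne.symm hne))
    omega
  · rintro rfl
    exact ⟨rfl, le_rfl⟩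

/-- the energy as a sum over the levels -/
lemma En_levels (i : ℕ) (w : P) :
    En i w = ∑ k ∈ Finset.range (lev w), (k - i) * cc k w + (lev w - i) := by
  classical
  have h1 := sum_levels w (fun k => k - i) (lev w + 1)
  rw [Finset.sum_range_succ, cc_self, mul_one] at h1
  rw [← h1]
  unfold En
  congr 1
  ext x
  simp only [mem_filter, mem_univ, true_and]
  constructor
  · intro h
    exact ⟨h, Nat.lt_succ_of_le (lev_strictAnti.antitone h)⟩
  · exact fun h => h.1

lemma ua_levels (w : P) : ua w = ∑ k ∈ Finset.range (lev w), cc k w + 1 := by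
  classical
  have h1 := sum_levels w (fun _ => 1) (lev w + 1)
  rw [Finset.sum_range_succ, cc_self, mul_one] at h1
  simp only [one_mul, Finset.sum_const, smul_eq_mul, mul_one] at h1
  rw [← h1]
  unfold ua
  congr 1
  ext x
  simp only [mem_filter, mem_univ, true_and]
  constructor
  · intro h
    exact ⟨h, Nat.lt_succ_of_le (lev_strictAnti.antitone h)⟩
  · exact fun h => h.1

/-- a maximal join has at least two elements above it on every level -/
lemma two_le_cc (hG : IsGaussian P) {w : P} (hwJ : Jn w) (hmax : ∀ u, w < u → ¬ Jn u) {k : ℕ}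
    (hk : k < lev w) : 2 ≤ cc k w := by
  classical
  obtain ⟨v, v', h1, h2, h3, h4, h5⟩ := hwJ
  obtain ⟨s, h6, h7, h8⟩ := exists_between hG h4 (k := k) (by omega) hk.le
  obtain ⟨s', h9, h10, h11⟩ := exists_between hG h5 (k := k) (by omega) hk.le
  have hne : s ≠ s' := by
    rintro rfl
    exact h3 (top_unique (hmax s (lt_of_le_of_ne h6 (by rintro rfl; omega))) h1 h2 h7 h10)
  have h12 : ({s, s'} : Finset P) ⊆ (lv P k).filter fun s => w ≤ s := by
    intro x hx
    rw [mem_insert, mem_singleton] at hx
    rw [mem_filter, mem_lv]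
    rcases hx with rfl | rfl
    · exact ⟨h8, h6⟩
    · exact ⟨h11, h9⟩
  have h13 := Finset.card_le_card h12
  rwa [Finset.card_pair hne] at h13

/-- above every join there is a maximal join, of smaller energy -/
lemma exists_max_join {w : P} (hwJ : Jn w) : ∃ u, w ≤ u ∧ Jn u ∧ (∀ t, u < t → ¬ Jn t) ∧
    ∀ i, En i u ≤ En i w := by
  classical
  obtain ⟨u, hu, hmin⟩ := Finset.exists_min_image (univ.filter fun u => w ≤ u ∧ Jn u)
    (fun u => lev u) ⟨w, by simp [hwJ]⟩
  rw [mem_filter] at hu
  refine ⟨u, hu.2.1, hu.2.2, fun t ht hJ => ?_, fun i => ?_⟩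
  · have h1 := hmin t (by simp [hJ, hu.2.1.trans ht.le])
    have h2 := lev_strictAnti ht
    omega
  · unfold En
    refine Finset.sum_le_sum_of_subset fun x hx => ?_
    simp only [mem_filter, mem_univ, true_and] at hx ⊢
    exact hu.2.1.trans hx

lemma sum_two (n : ℕ) : ∑ k ∈ Finset.range n, k * 2 + n = n ^ 2 := by
  rw [← Finset.sum_mul, Finset.sum_range_id_mul_two]
  rcases Nat.eq_zero_or_pos n with h | h
  · subst h
    simp
  · obtain ⟨m, rfl⟩ : ∃ m, n = m + 1 := ⟨n - 1, by omega⟩
    rw [Nat.add_sub_cancel]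
    ring

lemma sq_le_En (hG : IsGaussian P) {w : P} (hwJ : Jn w) (hmax : ∀ u, w < u → ¬ Jn u) :
    lev w ^ 2 ≤ En 0 w := by
  rw [En_levels, ← sum_two]
  simp only [Nat.sub_zero]
  refine Nat.add_le_add_right (Finset.sum_le_sum fun k hk => ?_) _
  exact Nat.mul_le_mul_left _ (two_le_cc hG hwJ hmax (Finset.mem_range.1 hk))

/-- No straight-straight join at the first joining level: if `w` is a join of least level then
some level above `w` (and above level `0`) contains more than two elements above `w`. -/
theorem no_straight (H : Gr P r) {w : P} (hwJ : Jn w) (hfirst : ∀ u : P, Jn u → lev w ≤ lev u) :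
    ∃ k, 0 < k ∧ k < lev w ∧ cc k w ≠ 2 := by
  classical
  by_contra hcon
  push Not at hcon
  have hE1 : En 0 w = lev w ^ 2 := by
    rw [En_levels, ← sum_two]
    simp only [Nat.sub_zero]
    congr 1
    refine Finset.sum_congr rfl fun k hk => ?_
    rcases Nat.eq_zero_or_pos k with h | h
    · subst h
      simp
    · rw [hcon k h (Finset.mem_range.1 hk)]
  have hge : ∀ u : P, Jn u → (∀ t, u < t → ¬ Jn t) → lev w ^ 2 ≤ En 0 u := fun u hu hm =>
    (Nat.pow_le_pow_left (hfirst u hu) 2).trans (sq_le_En H.gauss hu hm)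
  have hE : ∀ u : P, Jn u → lev w ^ 2 ≤ En 0 u := fun u hu => by
    obtain ⟨u', h1, h2, h3, h4⟩ := exists_max_join hu
    exact (hge u' h2 h3).trans (h4 0)
  have hsum := hull_zero H hE
  have hodd : ∀ u ∈ univ.filter (fun u : P => Jn u ∧ En 0 u = lev w ^ 2),
      (-1 : ℤ) ^ ua u = -1 := by
    intro u hu
    rw [mem_filter] at hu
    obtain ⟨-, huJ, huE⟩ := hu
    have hu0 : 0 < lev u := by
      obtain ⟨v, v', h1, h2, h3, h4, h5⟩ := huJ
      rcases Nat.eq_zero_or_pos (lev u) with h | h
      · exfalso
        have h6 : ∀ v : P, u ≤ v → u = v := fun v hv => by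
          by_contra hne
          have := lev_strictAnti (lt_of_le_of_ne hv hne)
          omega
        exact h3 ((h6 v h4).symm.trans (h6 v' h5))
      · exact h
    have hmax : ∀ t, u < t → ¬ Jn t := by
      intro t ht hJ
      have h1 := hE t hJ
      have h2 := En_lt (i := 0) hu0 ht
      omega
    have hlev : lev u = lev w := by
      have h1 := hfirst u huJ
      have h2 := sq_le_En H.gauss huJ hmax
      rw [huE] at h2
      have h3 : lev u ≤ lev w := (Nat.pow_le_pow_iff_left two_ne_zero).1 h2
      omega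
    have hcc : ∀ k ∈ Finset.range (lev u), cc k u = 2 := by
      have h1 := En_levels 0 u
      rw [huE, ← hlev, ← sum_two] at h1
      simp only [Nat.sub_zero] at h1
      have h2 := (Finset.sum_eq_sum_iff_of_le (fun k hk => Nat.mul_le_mul_left k
        (two_le_cc H.gauss huJ hmax (Finset.mem_range.1 hk)))).1 (Nat.add_right_cancel h1)
      intro k hk
      rcases Nat.eq_zero_or_pos k with h | h
      · subst h
        refine le_antisymm ?_ (two_le_cc H.gauss huJ hmax hu0)
        have h3 := two_sites H (i := 0) (Nat.zero_le _) (fun x hx hJ => by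
          obtain ⟨v, v', h1, h2, h3, h4, h5⟩ := hJ
          have h6 : ∀ v : P, x ≤ v → x = v := fun v hv => by
            by_contra hne
            have := lev_strictAnti (lt_of_le_of_ne hv hne)
            omega
          exact h3 ((h6 v h4).symm.trans (h6 v' h5))) rfl huJ fun t ht => by
            rw [huE]
            exact hE t ht
        exact h3.le
      · exact (Nat.eq_of_mul_eq_mul_left h (h2 k hk)).symm
    rw [ua_levels, Finset.sum_congr rfl hcc, Finset.sum_const, smul_eq_mul, pow_succ, mul_comm,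
      mul_comm (Finset.range (lev u)).card, pow_mul]
    norm_num
  rw [Finset.sum_congr rfl hodd, Finset.sum_const] at hsum
  have hcard : 0 < (univ.filter (fun u : P => Jn u ∧ En 0 u = lev w ^ 2)).card :=
    Finset.card_pos.2 ⟨w, by simp [hwJ, hE1]⟩
  rw [smul_neg, neg_eq_zero, smul_eq_zero] at hsum
  rcases hsum with h | h
  · omega
  · exact one_ne_zero h

end Straight

end Pool.Agent.GaussPoset.Hul
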