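import Pool.Agent.W_MP_448cb3_h96.Struct

/-!
# Joins and windows of single sites (MP_448cb3_co, arbitrary number of maximal elements)

`Jn x`: the element `x` is below two different maximal elements.  `En i w` is the sum of
`lev y - i` over the elements `y ≥ w`.  Here: a configuration of window `i` with fewer peaks than
maximal elements has energy at least `En i w` for some join `w`, with equality only for the
configuration `ew i w`.
-/

namespace Pool.Agent.GaussPoset.Hul

set_option linter.unusedSectionVars false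

open Finset

universe u

variable {P : Type u} [Fintype P] [PartialOrder P] [DecidableEq P]

/-- `x` is below two different maximal elements -/
def Jn (x : P) : Prop := ∃ v v' : P, lev v = 0 ∧ lev v' = 0 ∧ v ≠ v' ∧ x ≤ v ∧ x ≤ v'

lemma Jn.mono {x y : P} (h : x ≤ y) (hy : Jn y) : Jn x := by
  obtain ⟨v, v', h1, h2, h3, h4, h5⟩ := hy
  exact ⟨v, v', h1, h2, h3, h.trans h4, h.trans h5⟩

lemma top_unique {x v v' : P} (hx : ¬ Jn x) (hv : lev v = 0) (hv' : lev v' = 0) (h : x ≤ v)
    (h' : x ≤ v') : v = v' := by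
  by_contra hne
  exact hx ⟨v, v', hv, hv', hne, h, h'⟩

open Classical in
/-- energy of the join `w` in window `i` -/
noncomputable def En (i : ℕ) (w : P) : ℕ := ∑ y ∈ univ.filter (fun y => w ≤ y), (lev y - i)

section Rho

variable {i : ℕ} {e : P → ℕ}

lemma not_FA_lt {x y : P} (hx : ¬ FA i e x) (hxy : x < y) : rho i e y < rho i e x := by
  by_contra h
  exact hx ⟨y, hxy, not_lt.1 h⟩

lemma not_FA_up (hA : Adm i e) {x y : P} (hx : ¬ FA i e x) (hxy : x ≤ y) : ¬ FA i e y := by
  rcases eq_or_lt_of_le hxy with h | h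
  · rwa [← h]
  · intro hy
    exact hA y ⟨Or.inr ⟨x, h, not_FA_lt hx h⟩, hy⟩

lemma lev_le_rho (hA : Adm i e) : ∀ (n : ℕ) {x : P}, lev x = n → ¬ FA i e x →
    (lev x : ℤ) - i ≤ rho i e x := by
  intro n
  induction n with
  | zero =>
    intro x hx _
    unfold rho
    rw [hx]
    simp
  | succ n ih =>
    intro x hx hFA
    obtain ⟨y, hy, hy2⟩ := exists_lev_succ hx
    have h1 := ih hy2 (not_FA_up hA hFA hy.le)
    have h2 := not_FA_lt hFA hy
    rw [hy2] at h1
    rw [hx]
    push_cast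
    linarith

lemma exists_not_FA : ∀ (n : ℕ) {x : P}, lev x = n → ∃ y, x ≤ y ∧ ¬ FA i e y ∧
    rho i e x ≤ rho i e y := by
  intro n
  induction n using Nat.strong_induction_on with
  | _ n ih =>
    intro x hx
    by_cases h : FA i e x
    · obtain ⟨y, hy, hy2⟩ := h
      obtain ⟨y', h1, h2, h3⟩ := ih (lev y) (by rw [← hx]; exact lev_strictAnti hy) rfl
      exact ⟨y', hy.le.trans h1, h2, hy2.trans h3⟩
    · exact ⟨x, le_rfl, h, le_rfl⟩

lemma le_e_of_rho {x : P} (h : (lev x : ℤ) - i ≤ rho i e x) : lev x - i ≤ e x := by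
  unfold rho at h
  omega

lemma rho_le_e (x : P) : rho i e x ≤ e x := by
  unfold rho
  omega

open Classical in
lemma En_le_of_rho {w : P} (h : ∀ u, w ≤ u → (lev u : ℤ) - i ≤ rho i e u) :
    En i w ≤ ∑ x, e x := by
  unfold En
  refine (Finset.sum_le_sum fun u hu => ?_).trans
    (Finset.sum_le_sum_of_subset (Finset.subset_univ (univ.filter fun y => w ≤ y)))
  exact le_e_of_rho (h u (Finset.mem_filter.1 hu).2)

open Classical in
lemma En_lt_of_rho {w y : P} (h : ∀ u, w ≤ u → (lev u : ℤ) - i ≤ rho i e u)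
    (hy : w ≤ y → lev y - i < e y) (hy' : ¬ w ≤ y → 0 < e y) : En i w < ∑ x, e x := by
  have h1 : ∀ u ∈ univ.filter (fun u => w ≤ u), lev u - i ≤ e u := fun u hu =>
    le_e_of_rho (h u (Finset.mem_filter.1 hu).2)
  by_cases hwy : w ≤ y
  · unfold En
    refine lt_of_lt_of_le (Finset.sum_lt_sum h1 ⟨y, by simp [hwy], hy hwy⟩) ?_
    exact Finset.sum_le_sum_of_subset (Finset.subset_univ _)
  · unfold En
    refine lt_of_le_of_lt (Finset.sum_le_sum h1) ?_
    exact Finset.sum_lt_sum_of_subset (Finset.subset_univ _) (Finset.mem_univ y) (by simp [hwy])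
      (hy' hwy) fun _ _ _ => Nat.zero_le _

/-- an element covering `w` below `v` -/
lemma exists_cov {w v : P} (h : w < v) : ∃ x, w ⋖ x ∧ x ≤ v := by
  classical
  obtain ⟨x, hx, hmax⟩ := Finset.exists_max_image (univ.filter fun x => w < x ∧ x ≤ v) lev
    ⟨v, by simp [h]⟩
  rw [Finset.mem_filter] at hx
  refine ⟨x, ⟨hx.2.1, fun t h1 h2 => ?_⟩, hx.2.2⟩
  have h3 := hmax t (by simp [h1, h2.le.trans hx.2.2])
  have h4 := lev_strictAnti h2
  omega

variable {r : ℕ}

lemma exists_between (hG : IsGaussian P) {w v : P} (h : w ≤ v) {k : ℕ} (h1 : lev v ≤ k)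
    (h2 : k ≤ lev w) : ∃ s, w ≤ s ∧ s ≤ v ∧ lev s = k := by
  obtain ⟨n, hn⟩ : ∃ n, lev w = k + n := ⟨lev w - k, by omega⟩
  induction n generalizing w with
  | zero => exact ⟨w, le_rfl, h, hn⟩
  | succ n ih =>
    have hlt : w < v := lt_of_le_of_ne h (by rintro rfl; omega)
    obtain ⟨x, hx, hx2⟩ := exists_cov hlt
    have h3 := lev_covBy hG hx
    obtain ⟨s, h4, h5, h6⟩ := ih hx2 (by omega) (by omega)
    exact ⟨s, hx.1.le.trans h4, h5, h6⟩

/-- a column without a peak costs more than some join -/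
lemma zig (H : Gr P r) (hi : i ≤ r) (hone : ∀ x : P, lev x ≤ i → ¬ Jn x) (hA : Adm i e)
    (hJ : ∀ x : P, Jn x → FA i e x) {v : P} (hv : lev v = 0)
    (hnp : ∀ p, p ≤ v → ¬ FI i e p → FA i e p) : ∃ w : P, Jn w ∧ En i w < ∑ x, e x := by
  classical
  -- the set of the elements of the column which are not forced out
  obtain ⟨s, hs, hs2⟩ := H.exists_below (x := v) (j := i) (by omega) hi
  obtain ⟨y0, h01, h02, h03⟩ := exists_not_FA (i := i) (e := e) (lev s) (x := s) rfl
  have hy0v : y0 ≤ v := by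
    obtain ⟨v', h1, h2⟩ := exists_above' (x := y0) (j := 0) (Nat.zero_le _)
    have h3 := top_unique (hone s hs2.le) hv h2 hs (h01.trans h1)
    rw [h3]
    exact h1
  have hs0 : 0 ≤ rho i e s := by
    unfold rho
    omega
  obtain ⟨x, hx, hmax⟩ := Finset.exists_max_image (univ.filter fun x => x ≤ v ∧ ¬ FA i e x)
    (fun x => rho i e x) ⟨y0, by simp [hy0v, h02]⟩
  rw [Finset.mem_filter] at hx
  have hR0 : 0 ≤ rho i e x := hs0.trans (h03.trans (hmax y0 (by simp [hy0v, h02])))
  have hmem : ∀ t, t ≤ v → ¬ FA i e t → rho i e t ≤ rho i e x := fun t h1 h2 =>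
    hmax t (by simp [h1, h2])
  have hFI : FI i e x := by
    by_contra hFI
    exact hx.2.2 (hnp x hx.2.1 hFI)
  obtain ⟨z, hz, hz2⟩ : ∃ z, z < x ∧ rho i e x < rho i e z := by
    rcases hFI with h | h
    · exact absurd h (not_lt.2 hR0)
    · exact h
  obtain ⟨y, hy1, hy2, hy3⟩ := exists_not_FA (i := i) (e := e) (lev z) (x := z) rfl
  have hyv : ¬ y ≤ v := fun h => by
    have := hmem y h hy2
    omega
  obtain ⟨v', hv1, hv2⟩ := exists_above' (x := y) (j := 0) (Nat.zero_le _)
  have hzJ : Jn z := ⟨v, v', hv, hv2, fun h => hyv (by rw [h]; exact hv1), hz.le.trans hx.2.1,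
    hy1.trans hv1⟩
  have hnotFI : ∀ u, FA i e u → z ≤ u → rho i e z ≤ rho i e u := by
    intro u hu hzu
    rcases eq_or_lt_of_le hzu with h | h
    · rw [h]
    · by_contra hlt
      exact hA u ⟨Or.inr ⟨z, h, not_le.1 hlt⟩, hu⟩
  have claimA : ∀ u, z ≤ u → u ≤ v → ¬ Jn u → ¬ FA i e u := by
    intro u h1 h2 h3 h4
    obtain ⟨y', h5, h6, h7⟩ := exists_not_FA (i := i) (e := e) (lev u) (x := u) rfl
    obtain ⟨v'', h8, h9⟩ := exists_above' (x := y') (j := 0) (Nat.zero_le _)
    have h10 := top_unique h3 hv h9 h2 (h5.trans h8)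
    have h11 := hmem y' (by rw [h10]; exact h8) h6
    have h12 := hnotFI u h4 h1
    omega
  -- the join
  obtain ⟨w, hw, hmin⟩ := Finset.exists_min_image (univ.filter fun w => Jn w ∧ z ≤ w ∧ w ≤ v)
    (fun w => lev w) ⟨z, by simp [hzJ, hz.le.trans hx.2.1]⟩
  rw [Finset.mem_filter] at hw
  obtain ⟨-, hwJ, hzw, hwv⟩ := hw
  have hlw : i < lev w := by
    by_contra h
    exact hone w (not_lt.1 h) hwJ
  have hwlt : w < v := lt_of_le_of_ne hwv (by rintro rfl; omega)
  obtain ⟨x', hx'1, hx'2⟩ := exists_cov hwlt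
  have hx'3 := lev_covBy H.gauss hx'1
  have hx'J : ¬ Jn x' := by
    intro h
    have := hmin x' (by simp [h, hzw.trans hx'1.1.le, hx'2])
    omega
  have hx'F : ¬ FA i e x' := claimA x' (hzw.trans hx'1.1.le) hx'2 hx'J
  have h20 := lev_le_rho hA (lev x') rfl hx'F
  have h21 := hmem x' hx'2 hx'F
  have h22 : (lev w : ℤ) - i ≤ rho i e z := by
    rw [hx'3]
    push_cast
    omega
  have hall : ∀ u, w ≤ u → (lev u : ℤ) - i ≤ rho i e u := by
    intro u hu
    by_cases hF : FA i e u
    · have h1 := hnotFI u hF (hzw.trans hu)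
      have h2 : lev u ≤ lev w := lev_strictAnti.antitone hu
      omega
    · exact lev_le_rho hA (lev u) rfl hF
  refine ⟨w, hwJ, En_lt_of_rho (y := y) hall (fun h => ?_) fun _ => ?_⟩
  · have hne : w ≠ y := by
      rintro rfl
      exact hy2 (hJ w hwJ)
    have h1 := lev_strictAnti (lt_of_le_of_ne h hne)
    unfold rho at hy3 h22
    omega
  · have h1 := rho_le_e (i := i) (e := e) y
    omega

end Rho

end Pool.Agent.GaussPoset.Hul
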