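import Pool.Agent.W_448hul_h24.Peak

/-!
# The configurations of least energy

The configuration `ew i w` (label `lev y - i` above `w`, `0` elsewhere), its forced elements and its
peaks; every other configuration of energy at most the least energy of a join has at least as many
peaks as there are maximal elements.
-/

namespace Pool.Agent.GaussPoset.Hul

set_option linter.unusedSectionVars false

open Finset

universe u

variable {P : Type u} [Fintype P] [PartialOrder P] [DecidableEq P]

open Classical in
/-- the cheapest configuration with the join `w` as a peak -/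
noncomputable def ew (i : ℕ) (w x : P) : ℕ := if w ≤ x then lev x - i else 0

lemma sum_ew (i : ℕ) (w : P) : ∑ x, ew i w x = En i w := by
  classical
  unfold ew En
  rw [Finset.sum_filter]

lemma rho_ew_up {i : ℕ} {w x : P} (h : w ≤ x) : rho i (ew i w) x = (lev x : ℤ) - i := by
  unfold rho ew
  rw [if_pos h]
  omega

lemma rho_ew_not {i : ℕ} {w x : P} (h : ¬ w ≤ x) :
    rho i (ew i w) x = -((i - lev x : ℕ) : ℤ) := by
  unfold rho ew
  rw [if_neg h]
  simp

lemma rho_ew_small {i : ℕ} {w x : P} (h : lev x ≤ i) : rho i (ew i w) x = (lev x : ℤ) - i := by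
  by_cases hx : w ≤ x
  · exact rho_ew_up hx
  · rw [rho_ew_not hx]
    omega

lemma FI_ew {i : ℕ} {w : P} (x : P) :
    FI i (ew i w) x ↔ lev x < i ∨ w < x := by
  constructor
  · intro h
    by_contra hcon
    push Not at hcon
    obtain ⟨h1, h2⟩ := hcon
    have h3 : 0 ≤ rho i (ew i w) x := by
      by_cases hx : w ≤ x
      · rw [rho_ew_up hx]
        omega
      · rw [rho_ew_not hx]
        omega
    rcases h with h | ⟨z, hz, hz2⟩
    · omega
    · by_cases hwz : w ≤ z
      · exact h2 (lt_of_le_of_lt hwz hz)
      · rw [rho_ew_not hwz] at hz2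
        omega
  · rintro (h | h)
    · left
      rw [rho_ew_small h.le]
      omega
    · right
      refine ⟨w, h, ?_⟩
      rw [rho_ew_up h.le, rho_ew_up le_rfl]
      have := lev_strictAnti h
      omega

lemma FA_ew {i : ℕ} {w : P} (x : P) : FA i (ew i w) x ↔ i < lev x ∧ ¬ w ≤ x := by
  constructor
  · rintro ⟨y, hy, hy2⟩
    have h1 := lev_strictAnti hy
    by_contra hcon
    by_cases hx : w ≤ x
    · rw [rho_ew_up hx, rho_ew_up (hx.trans hy.le)] at hy2
      omega
    · have h2 : lev x ≤ i := by
        by_contra h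
        exact hcon ⟨not_le.1 h, hx⟩
      rw [rho_ew_small h2, rho_ew_small (h1.le.trans h2)] at hy2
      omega
  · rintro ⟨h1, h2⟩
    obtain ⟨y, hy, hy2⟩ := exists_above' (x := x) (j := i) h1.le
    refine ⟨y, lt_of_le_of_ne hy (by rintro rfl; omega), ?_⟩
    rw [rho_ew_not h2, rho_ew_small hy2.le]
    omega

lemma adm_ew {i : ℕ} {w : P} (hw : i < lev w) : Adm i (ew i w) := by
  intro x hx
  rw [FI_ew, FA_ew] at hx
  obtain ⟨h1 | h1, h2, h3⟩ := hx
  · omega
  · exact h3 h1.le

lemma ew_inj {i : ℕ} {w w' : P} (hw : i < lev w) (hw' : i < lev w') (h : ew i w = ew i w') :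
    w = w' := by
  have h1 := congrFun h w
  have h2 := congrFun h w'
  unfold ew at h1 h2
  rw [if_pos le_rfl] at h1
  rw [if_pos (le_refl w')] at h2
  have h3 : w' ≤ w := by
    by_contra hcon
    rw [if_neg hcon] at h1
    omega
  have h4 : w ≤ w' := by
    by_contra hcon
    rw [if_neg hcon] at h2
    omega
  exact le_antisymm h4 h3

open Classical in
/-- number of elements of level at least `i` above `w` -/
noncomputable def uc (i : ℕ) (w : P) : ℕ := (univ.filter (fun x => w ≤ x ∧ i ≤ lev x)).card

lemma nf_ew {i : ℕ} {w : P} (hw : i < lev w) : nf i (ew i w) + 1 = below P i + uc i w := by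
  classical
  unfold nf below uc
  have h1 : (univ.filter fun x => FI i (ew i w) x) = (univ.filter fun x : P => lev x < i) ∪
      (univ.filter fun x => w < x ∧ i ≤ lev x) := by
    ext x
    simp only [mem_filter, mem_univ, true_and, mem_union, FI_ew]
    constructor
    · rintro (h | h)
      · exact Or.inl h
      · by_cases hx : lev x < i
        · exact Or.inl hx
        · exact Or.inr ⟨h, by omega⟩
    · rintro (h | h)
      · exact Or.inl h
      · exact Or.inr h.1
  have h2 : (univ.filter fun x => w ≤ x ∧ i ≤ lev x) =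
      insert w (univ.filter fun x => w < x ∧ i ≤ lev x) := by
    ext x
    simp only [mem_filter, mem_univ, true_and, mem_insert]
    constructor
    · rintro ⟨h3, h4⟩
      rcases eq_or_lt_of_le h3 with h | h
      · exact Or.inl h.symm
      · exact Or.inr ⟨h, h4⟩
    · rintro (h | h)
      · subst h
        exact ⟨le_rfl, hw.le⟩
      · exact ⟨h.1.le, h.2⟩
  rw [h1, h2, card_insert_of_notMem (by simp), card_union_of_disjoint]
  · ring
  · rw [Finset.disjoint_left]
    intro x hx hx2
    simp only [mem_filter, mem_univ, true_and] at hx hx2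
    omega

open Classical in
lemma Pk_ew {i : ℕ} {w : P} (hw : i < lev w) :
    (Pk i (ew i w)).card + ((lv P i).filter fun s => w ≤ s).card = (lv P i).card + 1 := by
  classical
  have h1 : Pk i (ew i w) = insert w ((lv P i).filter fun s => ¬ w ≤ s) := by
    ext x
    simp only [Pk, mem_filter, mem_univ, true_and, mem_insert, mem_lv, FI_ew, FA_ew]
    constructor
    · rintro ⟨h3, h4⟩
      push Not at h3 h4
      by_cases hx : w ≤ x
      · left
        by_contra hne
        exact h3.2 (lt_of_le_of_ne hx (Ne.symm hne))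
      · right
        refine ⟨?_, hx⟩
        by_contra hne
        exact hx (h4 (lt_of_le_of_ne h3.1 (Ne.symm hne)))
    · rintro (h | ⟨h, h'⟩)
      · subst h
        exact ⟨by simp [hw.le], by simp⟩
      · refine ⟨?_, by omega⟩
        push Not
        exact ⟨by omega, fun h2 => h' h2.le⟩
  rw [h1, card_insert_of_notMem (by simp), ← Finset.card_filter_add_card_filter_not (s := lv P i)
    (fun s => w ≤ s)]
  ring

variable {r i : ℕ}

/-- below every maximal element there is one site, and different sites have different tops -/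
lemma site_unique (H : Gr P r) (hi : i ≤ r) (hone : ∀ x : P, lev x ≤ i → ¬ Jn x)
    (hcard : (lv P i).card = (lv P 0).card) {s s' v : P} (hs : lev s = i) (hs' : lev s' = i)
    (hv : lev v = 0) (h : s ≤ v) (h' : s' ≤ v) : s = s' := by
  classical
  have hex : ∀ s : P, ∃ v, s ≤ v ∧ lev v = 0 := fun s => exists_above' (Nat.zero_le _)
  choose f hf hf2 using hex
  have hsurj : Set.SurjOn f (lv P i) (lv P 0) := by
    intro v hv
    rw [Finset.mem_coe, mem_lv] at hv
    obtain ⟨s, h1, h2⟩ := H.exists_below (x := v) (j := i) (by omega) hi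
    refine ⟨s, by rw [Finset.mem_coe, mem_lv]; exact h2, ?_⟩
    exact top_unique (hone s h2.le) (hf2 s) hv (hf s) h1
  have hinj := Finset.injOn_of_surjOn_of_card_le f (fun s _ => by
    rw [Finset.mem_coe, mem_lv]
    exact hf2 s) hsurj hcard.le
  have e1 : f s = v := top_unique (hone s hs.le) (hf2 s) hv (hf s) h
  have e2 : f s' = v := top_unique (hone s' hs'.le) (hf2 s') hv (hf s') h'
  exact hinj (by rw [Finset.mem_coe, mem_lv]; exact hs) (by rw [Finset.mem_coe, mem_lv]; exact hs')
    (e1.trans e2.symm)

lemma En_lt {w u : P} (hw : i < lev w) (h : w < u) : En i u < En i w := by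
  classical
  unfold En
  refine Finset.sum_lt_sum_of_subset (i := w) ?_ (by simp) (by simp [h.not_ge]) (by omega)
    fun _ _ _ => Nat.zero_le _
  intro x hx
  simp only [mem_filter, mem_univ, true_and] at hx ⊢
  exact h.le.trans hx

open Classical in
/-- a join of least energy is below exactly two sites -/
lemma two_sites (H : Gr P r) (hi : i ≤ r) (hone : ∀ x : P, lev x ≤ i → ¬ Jn x)
    (hcard : (lv P i).card = (lv P 0).card) {w : P} (hwJ : Jn w)
    (hmin : ∀ u : P, Jn u → En i w ≤ En i u) :
    ((lv P i).filter fun s => w ≤ s).card = 2 := by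
  classical
  have hlw : i < lev w := by
    by_contra h
    exact hone w (not_lt.1 h) hwJ
  have hup : ∀ u, w < u → ¬ Jn u := fun u hu hJ => by
    have h1 := hmin u hJ
    have h2 := En_lt hlw hu
    omega
  apply le_antisymm
  · have hex : ∀ s, s ∈ (lv P i).filter (fun s => w ≤ s) → ∃ x, w ⋖ x ∧ x ≤ s := by
      intro s hs
      rw [mem_filter, mem_lv] at hs
      exact exists_cov (lt_of_le_of_ne hs.2 (by rintro rfl; omega))
    choose! g hg hg2 using hex
    obtain ⟨j, hj⟩ : ∃ j, lev w = j + 1 := ⟨lev w - 1, by omega⟩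
    have h2 : up j w ≤ 2 := (energy_one H (j := j) (by have := H.lev_le w; omega)).2.1 w hj
    refine le_trans ?_ h2
    unfold up
    refine Finset.card_le_card_of_injOn g ?_ ?_
    · intro s hs
      have h3 := hg s hs
      have h4 := lev_covBy H.gauss h3
      rw [Finset.mem_coe, mem_filter, mem_lv]
      exact ⟨by omega, h3.1⟩
    · intro s hs s' hs' hss
      have h5 := hg s hs
      have h6 := hg2 s hs
      have h7 := hg2 s' hs'
      rw [← hss] at h7
      rw [Finset.mem_coe, mem_filter, mem_lv] at hs hs'
      obtain ⟨v, h8, h9⟩ := exists_above' (x := s) (j := 0) (Nat.zero_le _)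
      obtain ⟨v', h10, h11⟩ := exists_above' (x := s') (j := 0) (Nat.zero_le _)
      have h12 := top_unique (hup _ h5.1) h9 h11 (h6.trans h8) (h7.trans h10)
      exact site_unique H hi hone hcard hs.1 hs'.1 h9 h8 (by rw [h12]; exact h10)
  · obtain ⟨v, v', h1, h2, h3, h4, h5⟩ := hwJ
    obtain ⟨s, h6, h7, h8⟩ := exists_between H.gauss h4 (k := i) (by omega) hlw.le
    obtain ⟨s', h9, h10, h11⟩ := exists_between H.gauss h5 (k := i) (by omega) hlw.le
    have hne : s ≠ s' := by
      rintro rfl
      exact h3 (top_unique (hone s h8.le) h1 h2 h7 h10)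
    have h12 : ({s, s'} : Finset P) ⊆ (lv P i).filter fun s => w ≤ s := by
      intro x hx
      rw [mem_insert, mem_singleton] at hx
      rw [mem_filter, mem_lv]
      rcases hx with rfl | rfl
      · exact ⟨h8, h6⟩
      · exact ⟨h11, h9⟩
    have h13 := Finset.card_le_card h12
    rwa [Finset.card_pair hne] at h13

/-- the dichotomy for a configuration of small energy -/
lemma few_peaks (H : Gr P r) (hi : i ≤ r) (hone : ∀ x : P, lev x ≤ i → ¬ Jn x)
    (hcard : (lv P i).card = (lv P 0).card) {E : ℕ} (hE : ∀ w : P, Jn w → E ≤ En i w)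
    {e : P → ℕ} (hA : Adm i e) (he : ∑ x, e x = E) (hpk : (Pk i e).card < (lv P i).card) :
    ∃ w : P, Jn w ∧ En i w = E ∧ e = ew i w := by
  classical
  by_cases hJ : ∀ x : P, Jn x → FA i e x
  · exfalso
    by_cases hpe : ∀ v : P, lev v = 0 → ∃ p, p ≤ v ∧ ¬ FI i e p ∧ ¬ FA i e p
    · choose! g hg hg2 hg3 using hpe
      have h1 : (lv P 0).card ≤ (Pk i e).card := by
        refine Finset.card_le_card_of_injOn g ?_ ?_
        · intro v hv
          rw [Finset.mem_coe, mem_lv] at hv
          rw [Finset.mem_coe]
          simp only [Pk, mem_filter, mem_univ, true_and]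
          exact ⟨hg2 v hv, hg3 v hv⟩
        · intro v hv v' hv' hvv
          rw [Finset.mem_coe, mem_lv] at hv hv'
          have h2 := hg v hv
          have h3 := hg v' hv'
          rw [← hvv] at h3
          exact top_unique (fun h => hg3 v hv (hJ _ h)) hv hv' h2 h3
      omega
    · push Not at hpe
      obtain ⟨v, hv, hv2⟩ := hpe
      obtain ⟨w, hw, hw2⟩ := zig H hi hone hA hJ hv hv2
      have := hE w hw
      omega
  · push Not at hJ
    obtain ⟨w, hwJ, hwF⟩ := hJ
    have hlw : i < lev w := by
      by_contra h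
      exact hone w (not_lt.1 h) hwJ
    have hall : ∀ u, w ≤ u → (lev u : ℤ) - i ≤ rho i e u := fun u hu =>
      lev_le_rho hA (lev u) rfl (not_FA_up hA hwF hu)
    have h1 := En_le_of_rho hall
    have h2 := hE w hwJ
    have h3 : En i w = ∑ x, e x := by omega
    refine ⟨w, hwJ, by omega, ?_⟩
    have h4 : ∀ x ∈ (univ : Finset P), ew i w x ≤ e x := by
      intro x _
      unfold ew
      split_ifs with hx
      · exact le_e_of_rho (hall x hx)
      · exact Nat.zero_le _
    rw [← sum_ew] at h3
    have h5 := (Finset.sum_eq_sum_iff_of_le h4).1 h3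
    funext x
    exact (h5 x (mem_univ x)).symm

end Pool.Agent.GaussPoset.Hul
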